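import Pool.Agent.W619.Y.Stm2
import Pool.Agent.W619.TW.Rot

/-! Regularity at a place of the quotient, for vector fields regular there. -/

set_option autoImplicit false
set_option linter.overlappingInstances false
set_option linter.unusedSectionVars false

universe u v

open Algebra FF IntermediateField Pool.Agent.W619.PQ Pool.Agent.W619.PL Pool.Agent.W619.TW
  Pool.Agent.W603.LV Pool.Agent.W619.Y

namespace Pool.Agent.W140.PG.REG2

section

variable {k : Type v} {L : Type u} [Field k] [Field L] [Algebra k L]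

theorem ge_comp (w : Place k L) (g : L ≃ₐ[k] L) (N : ℤ) (f : L) :
    Ge (w.comp g) N f ↔ Ge w N (g f) := by
  unfold Ge
  rw [Place.comp_ord, map_eq_zero_iff g g.injective]

theorem over_comp {G : Subgroup (L ≃ₐ[k] L)} {v : Place k (fixedField G)} {w : Place k L} {e : ℕ}
    (h : Over w v e) (g : G) : Over (w.comp (g : L ≃ₐ[k] L)) v e := by
  refine ⟨h.1, fun f => ?_⟩
  rw [Place.comp_ord]
  have h1 : (g : L ≃ₐ[k] L) (algebraMap (fixedField G) L f) = algebraMap (fixedField G) L f :=
    f.2 g
  rw [h1, h.2]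

theorem div_up {K : Type u} [Field K] [Algebra k K] [Algebra K L] [IsScalarTower k K L]
    {v : Place k K} {w : Place k L} {e n : ℕ} (h : Over w v e) (hv : IsDivisorial v n) :
    IsDivisorial w n := by
  obtain ⟨y, hy⟩ := hv
  refine ⟨fun i => algebraMap K L (y i), fun p hp => ?_⟩
  have h1 : MvPolynomial.aeval (fun i => algebraMap K L (y i)) p =
      algebraMap K L (MvPolynomial.aeval y p) := by
    rw [← MvPolynomial.aeval_algebraMap_apply]
    rfl
  rw [h1]
  exact ⟨(map_ne_zero (algebraMap K L)).2 (hy p hp).1, by rw [h.2, (hy p hp).2, mul_zero]⟩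

theorem det_append {d n : ℕ} (D' : Fin (d + n) → Derivation k L L) (y z : Fin d → L)
    (x : Fin n → L) (Z : Matrix (Fin d) (Fin d) L)
    (hZ : ∀ (D : Derivation k L L) l, D (y l) = ∑ c, Z l c * D (z c)) :
    (Matrix.of fun i j => D' j ((Fin.append y x : Fin (d + n) → L) i)).det =
      Z.det * (Matrix.of fun i j => D' j ((Fin.append z x : Fin (d + n) → L) i)).det := by
  rw [← Matrix.det_submatrix_equiv_self (finSumFinEquiv (m := d) (n := n))
      (Matrix.of fun i j => D' j ((Fin.append y x : Fin (d + n) → L) i)),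
    ← Matrix.det_submatrix_equiv_self (finSumFinEquiv (m := d) (n := n))
      (Matrix.of fun i j => D' j ((Fin.append z x : Fin (d + n) → L) i))]
  have hdet : (Matrix.fromBlocks Z 0 0 (1 : Matrix (Fin n) (Fin n) L)).det = Z.det := by
    rw [Matrix.det_fromBlocks_zero₂₁, Matrix.det_one, mul_one]
  rw [← hdet, ← Matrix.det_mul]
  congr 1
  ext i j
  rcases i with i | i
  · simp [Matrix.mul_apply, Fintype.sum_sum_type, hZ]
  · simp [Matrix.mul_apply, Fintype.sum_sum_type, Matrix.one_apply]

theorem det_change {d n : ℕ} (D' : Fin (d + n) → Derivation k L L) (t : Fin (d + n) → L)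
    (j0 : Fin (d + n)) (c u : Fin (d + n) → L) (hc : c j0 = 0) :
    (Matrix.of fun i j => (u j • (D' j + c j • D' j0)) (t i)).det =
      (∏ j, u j) * (Matrix.of fun i j => D' j (t i)).det := by
  have h1 : (Matrix.of fun i j => D' j (t i) + c j * D' j0 (t i)).det =
      (Matrix.of fun i j => D' j (t i)).det := by
    rw [← Matrix.det_transpose (Matrix.of fun i j => D' j (t i) + c j * D' j0 (t i)),
      ← Matrix.det_transpose (Matrix.of fun i j => D' j (t i))]
    exact Matrix.det_eq_of_forall_row_eq_smul_add_const c j0 hc fun i j => rfl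
  rw [← h1, ← Matrix.det_mul_row]
  rfl

end

theorem core (h1 : S_PRES.{u, v}) (h2 : S_LOG.{u, v}) (h3 : S_EXT.{u, v})
    (h4 : S_REGLOG2.{u, v})
    (k : Type v) (L : Type u) [Field k] [CharZero k] [IsAlgClosed k]
    [Field L] [Algebra k L] (d n : ℕ) (F : Fin n → IntermediateField k L) [∀ i, IsFF k (F i)]
    (G : Subgroup (L ≃ₐ[k] L)) [Finite G] (σ : G →* Equiv.Perm (Fin n))
    (htr : Algebra.trdeg k L = (d + n : ℕ))
    (hF : ∀ (g : G) i, ∀ z ∈ F i, (g : L ≃ₐ[k] L) z ∈ F (σ g i))
    (N : ℕ) (hN : 2 ≤ N) (hfree : FreeIn N G σ F)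
    (x : Fin n → L) (hxQ : ∀ i, x i ∈ Quo G σ F i) (hxt : ∀ i, Transcendental k (x i))
    (hxg : ∀ (g : G) i, (g : L ≃ₐ[k] L) (x i) = x (σ g i))
    (v : Place k (fixedField G)) (w : Place k L) (e : ℕ) (hwv : Over w v e)
    (h : G) (ζ : k) (hord : orderOf h = e) (hζ : IsPrimitiveRoot ζ e)
    (hgen : ∀ z : L, z ≠ 0 → Ge w (w.ord z + 1)
        ((h : L ≃ₐ[k] L) z - algebraMap k L (ζ ^ (w.ord z)) * z))
    (m : ℕ) (b : Fin n → L) (hbQ : ∀ i, b i ∈ Quo G σ F i) (hb0 : ∀ i, b i ≠ 0)
    (hgood : ∀ i, GoodAt (Quo G σ F i) N m (x i) (b i))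
    (y : Fin d → L) (a : L) (hY : YGood d m w y a)
    (D : Fin (d + n) → Derivation k (fixedField G) (fixedField G))
    (D' : Fin (d + n) → Derivation k L L)
    (hD : ∀ j, Pres v (D j)) (hDD : ∀ j (f : fixedField G), D' j (f : L) = (D j f : L)) :
    Ge w 0 (a * (∏ i, b i) *
      (Matrix.of fun i j => D' j ((Fin.append y x : Fin (d + n) → L) i)).det ^ m) := by
  classical
  have hGal : IsGaloisGroup G (fixedField G) L := isGaloisGroup_fixed G
  have hfd : FiniteDimensional (fixedField G) L :=
    IsGaloisGroup.finiteDimensional G (fixedField G) L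
  have halg : Algebra.IsAlgebraic (fixedField G) L := inferInstance
  have htrK : Algebra.trdeg k (fixedField G) = (d + n : ℕ) := by
    have h5 := trdeg_add_eq k (fixedField G) (A := L)
    rw [trdeg_eq_zero (R := fixedField G) (A := L), add_zero] at h5
    rw [h5, htr]
  have hcomm : ∀ (E : Derivation k (fixedField G) (fixedField G)) (E' : Derivation k L L),
      (∀ f : fixedField G, E' (f : L) = (E f : L)) →
      ∀ (g : G) z, (g : L ≃ₐ[k] L) (E' z) = E' ((g : L ≃ₐ[k] L) z) := by
    intro E E' hE g z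
    obtain ⟨E0, hE0, huniq, hg⟩ := h3 k (fixedField G) L (d + n) htrK E
    have h5 : E' = E0 := huniq E' hE
    rw [h5]
    exact hg g (fun f => f.2 g) z
  by_cases hcase : e = 1 ∧ ∀ i, ∀ z ∈ F i, w.ord z = 0
  · obtain ⟨he, htriv⟩ := hcase
    have hpres : ∀ j, ∀ z : L, w.Reg z → w.Reg (D' j z) := by
      intro j
      refine h1 k (fixedField G) L v w e hwv (D' j) ?_ (Or.inl he)
      intro f hf
      have h5 : D' j (algebraMap (fixedField G) L f) = algebraMap (fixedField G) L (D j f) :=
        hDD j f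
      rw [h5]
      exact hwv.reg.2 (hD j f hf)
    obtain ⟨Z, z, hz, hZ, hZa⟩ := hY
    rw [det_append D' y z x Z hZ]
    have h6 : Ge w 0 (Matrix.of fun i j => D' j ((Fin.append z x : Fin (d + n) → L) i)).det := by
      apply ge_det
      intro i j
      apply hpres
      induction i using Fin.addCases with
      | left i => rw [Fin.append_left]; exact hz i
      | right i => rw [Fin.append_right]; exact Or.inr (htriv i _ (hxQ i).1).ge
    have h7 : Ge w 0 (∏ i, b i) := by
      have := Ge.prod (P := w) Finset.univ b (fun _ => 0) fun i _ =>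
        (Or.inr (htriv i _ (hbQ i).1).ge : Ge w 0 (b i))
      simpa using this
    have h8 := (hZa.mul h7).mul (h6.pow m)
    have h9 : a * (∏ i, b i) * (Z.det *
        (Matrix.of fun i j => D' j ((Fin.append z x : Fin (d + n) → L) i)).det) ^ m =
        a * Z.det ^ m * (∏ i, b i) *
        (Matrix.of fun i j => D' j ((Fin.append z x : Fin (d + n) → L) i)).det ^ m := by
      rw [mul_pow]; ring
    rw [h9]
    simpa using h8
  have hne : e = 1 → ∃ i, ∃ z ∈ F i, w.ord z ≠ 0 := by
    intro he
    by_contra hcon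
    push Not at hcon
    exact hcase ⟨he, hcon⟩
  obtain ⟨s, hs0, hs⟩ := v.surj
  have hsL : algebraMap (fixedField G) L s ≠ 0 := by simpa using hs0
  have hlogcase : ∀ (E : Fin (d + n) → Derivation k (fixedField G) (fixedField G))
      (E' : Fin (d + n) → Derivation k L L), (∀ j, Pres v (E j)) →
      (∀ j (f : fixedField G), E' j (f : L) = (E j f : L)) →
      (∀ j, v.Reg (E j s / s)) → Ge w (m * e) (a * (∏ i, b i) *
        (Matrix.of fun i j => E' j ((Fin.append y x : Fin (d + n) → L) i)).det ^ m) := by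
    intro E E' hE hEE hEs
    refine h4 k L d n F G σ hF N m e hN hfree w h ζ hord hζ hgen hne y a hY x b hxQ hxt hxg
      hbQ hb0 hgood E' ?_ ?_
    · intro j
      refine h2 k (fixedField G) L v w e hwv (E' j) ?_
      intro f
      have h5 : v.Reg (E j f / f) := log_of_pres v (E j) (hE j) hs0 hs (hEs j) f
      have h6 : E' j (algebraMap (fixedField G) L f) / algebraMap (fixedField G) L f =
          algebraMap (fixedField G) L (E j f / f) := by
        rw [map_div₀]
        congr 1
        exact hEE j f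
      rw [h6]
      exact hwv.reg.2 h5
    · intro j z
      exact hcomm (E j) (E' j) (hEE j) h z
  by_cases hlog : ∀ j, v.Reg (D j s / s)
  · exact (hlogcase D D' hD hDD hlog).mono (by positivity)
  push Not at hlog
  obtain ⟨j0, hj0⟩ := hlog
  have h5 : v.Reg (D j0 s) := hD j0 s (Or.inr (by omega))
  have h6 : D j0 s ≠ 0 := by
    intro h6
    apply hj0
    left
    rw [h6, zero_div]
  have h7 : v.ord (D j0 s) = 0 := by
    have h8 : 0 ≤ v.ord (D j0 s) := h5.resolve_left h6
    by_contra h9
    apply hj0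
    right
    rw [v.ord_div h6 hs0, hs]
    omega
  let c : Fin (d + n) → fixedField G := fun j => if j = j0 then 0 else -(D j s / D j0 s)
  let u : Fin (d + n) → fixedField G := fun j => if j = j0 then s else 1
  let E : Fin (d + n) → Derivation k (fixedField G) (fixedField G) := fun j =>
    u j • (D j + c j • D j0)
  let E' : Fin (d + n) → Derivation k L L := fun j =>
    (u j : L) • (D' j + (c j : L) • D' j0)
  have hinv : Ge v 0 (D j0 s)⁻¹ := Or.inr (by rw [v.ord_inv, h7]; simp)
  have hc : ∀ j, Ge v 0 (c j) := by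
    intro j
    by_cases hj : j = j0
    · left; simp [c, hj]
    · simp only [c, hj, if_false]
      have h8 : Ge v 0 (D j s) := hD j s (Or.inr (by omega))
      rw [div_eq_mul_inv]
      simpa using (h8.mul hinv).neg
  have hu : ∀ j, Ge v 0 (u j) := by
    intro j
    by_cases hj : j = j0
    · simp only [u, hj, if_true]; exact Or.inr (by omega)
    · simp only [u, hj, if_false]; exact Ge.one
  have hE : ∀ j, Pres v (E j) := by
    intro j f hf
    change Ge v 0 (u j * (D j f + c j * D j0 f))
    have h8 : Ge v 0 (D j f) := hD j f hf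
    have h9 : Ge v 0 (D j0 f) := hD j0 f hf
    have h10 := (hc j).mul h9
    rw [add_zero] at h10
    simpa using (hu j).mul (h8.add h10)
  have hEE : ∀ j (f : fixedField G), E' j (f : L) = (E j f : L) := by
    intro j f
    change (u j : L) * (D' j (f : L) + (c j : L) * D' j0 (f : L)) = _
    rw [hDD, hDD]
    rfl
  have hEs : ∀ j, v.Reg (E j s / s) := by
    intro j
    change v.Reg (u j * (D j s + c j * D j0 s) / s)
    by_cases hj : j = j0
    · have h8 : u j * (D j s + c j * D j0 s) / s = D j0 s := by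
        simp only [u, c, hj, if_true, zero_mul, add_zero]
        field_simp
      rw [h8]
      exact h5
    · have h8 : u j * (D j s + c j * D j0 s) / s = 0 := by
        simp only [u, c, hj, if_false]
        field_simp
        ring
      rw [h8]
      exact Or.inl rfl
  have hdet : (Matrix.of fun i j => E' j ((Fin.append y x : Fin (d + n) → L) i)).det =
      (s : L) * (Matrix.of fun i j => D' j ((Fin.append y x : Fin (d + n) → L) i)).det := by
    have h8 := det_change D' (Fin.append y x : Fin (d + n) → L) j0 (fun j => (c j : L))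
      (fun j => (u j : L)) (by simp [c])
    have h9 : ∏ j, (u j : L) = (s : L) := by
      have h10 : ∀ j, (u j : L) = if j = j0 then (s : L) else 1 := by
        intro j
        simp only [u]
        split_ifs <;> rfl
      rw [Finset.prod_congr rfl fun j _ => h10 j]
      simp
    rw [h9] at h8
    exact h8
  have h10 := hlogcase E E' hE hEE hEs
  rw [hdet] at h10
  have h11 : a * (∏ i, b i) *
      ((s : L) * (Matrix.of fun i j => D' j ((Fin.append y x : Fin (d + n) → L) i)).det) ^ m =
      (s : L) ^ m * (a * (∏ i, b i) *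
        (Matrix.of fun i j => D' j ((Fin.append y x : Fin (d + n) → L) i)).det ^ m) := by
    rw [mul_pow]; ring
  rw [h11] at h10
  have hsL' : (s : L) ≠ 0 := hsL
  have hsord : w.ord (s : L) = e := by
    have h12 := hwv.2 s
    rw [hs, mul_one] at h12
    exact h12
  refine Ge.of_mul' (P := w) (N := 0) (m := m * e) (pow_ne_zero m hsL') ?_ ?_
  · rw [w.ord_pow, hsord]
  · rw [zero_add]; exact h10

theorem main (h1 : S_PRES.{u, v}) (h2 : S_LOG.{u, v}) (h3 : S_EXT.{u, v})
    (h4 : S_REGLOG2.{u, v}) : S_REG2.{u, v} := by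
  intro k L _ _ _ _ _ d n F _ G _ σ htr hF N hN hfree x hxQ hxt hxg v hv
  obtain ⟨w, e, I, hwv, hIe, hI⟩ := exists_inertia G v
  obtain ⟨g0, hgI, hgord, ζ, hζ, hgen⟩ := exists_rot_generator w I hI
  rw [hIe] at hgord hζ
  rw [Subgroup.orderOf_coe] at hgord
  refine ⟨w, e, hwv, ?_⟩
  intro m b hbQ hb0 hgood y a hY D D' hD hDD g
  rw [← ge_comp]
  have hwv' := over_comp hwv g
  have hdiv : IsDivisorial (w.comp (g : L ≃ₐ[k] L)) (d + n) := div_up hwv' hv
  refine core h1 h2 h3 h4 k L d n F G σ htr hF N hN hfree x hxQ hxt hxg v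
    (w.comp (g : L ≃ₐ[k] L)) e hwv' (g⁻¹ * g0 * g) ζ ?_ hζ ?_ m b hbQ hb0 hgood y a
    (hY _ hdiv) D D' hD hDD
  · rw [← hgord]
    have h5 : g⁻¹ * g0 * g = MulAut.conj g⁻¹ g0 := by
      rw [MulAut.conj_apply, inv_inv]
    rw [h5]
    exact MulEquiv.orderOf_eq (MulAut.conj g⁻¹) g0
  · intro z hz
    rw [ge_comp, Place.comp_ord, map_sub, map_mul, AlgEquiv.commutes]
    have h5 := hgen ((g : L ≃ₐ[k] L) z) (by simpa using hz)
    have h6 : (g : L ≃ₐ[k] L) (((g⁻¹ * g0 * g : G) : L ≃ₐ[k] L) z) =
        (g0 : L ≃ₐ[k] L) ((g : L ≃ₐ[k] L) z) := by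
      have h7 : (g : L ≃ₐ[k] L) * ((g⁻¹ * g0 * g : G) : L ≃ₐ[k] L) =
          (g0 : L ≃ₐ[k] L) * (g : L ≃ₐ[k] L) := by
        push_cast
        group
      exact congrArg (fun f : L ≃ₐ[k] L => f z) h7
    rw [h6]
    exact h5

end Pool.Agent.W140.PG.REG2
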